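import Mathlib

/-! Iterated box averages: `Av w F t = (1/(2w)) ∫_{-w}^{w} F (t + x) dx`. -/

set_option autoImplicit false

open Complex Filter Topology MeasureTheory Set

namespace Pool.Agent.Lib.MP_6bc78b_nt.GP.H10A

/-- The average of `F` over `[t - w, t + w]`. -/
noncomputable def Av (w : ℝ) (F : ℝ → ℂ) (t : ℝ) : ℂ :=
  (((2 * w)⁻¹ : ℝ) : ℂ) * ∫ x in (-w)..w, F (t + x)

lemma Av_cont {w : ℝ} {F : ℝ → ℂ} (hF : Continuous F) : Continuous (Av w F) := by
  unfold Av
  refine continuous_const.mul ?_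
  exact intervalIntegral.continuous_parametric_intervalIntegral_of_continuous' (by fun_prop) _ _

lemma Av_cont_iter {w : ℝ} (n : ℕ) : ∀ {F : ℝ → ℂ}, Continuous F → Continuous ((Av w)^[n] F) := by
  induction n with
  | zero => intro F hF; exact hF
  | succ n ih =>
    intro F hF
    rw [Function.iterate_succ_apply]
    exact ih (Av_cont hF)

lemma Av_norm {w : ℝ} (hw : 0 < w) {F : ℝ → ℂ} {t M : ℝ}
    (h : ∀ x, |x - t| ≤ w → ‖F x‖ ≤ M) : ‖Av w F t‖ ≤ M := by
  unfold Av
  rw [norm_mul, Complex.norm_real, Real.norm_eq_abs, abs_of_pos (by positivity)]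
  have h1 : ‖∫ x in (-w)..w, F (t + x)‖ ≤ M * |w - (-w)| := by
    refine intervalIntegral.norm_integral_le_of_norm_le_const fun x hx => h _ ?_
    rw [uIoc_of_le (by linarith)] at hx
    rw [add_sub_cancel_left, abs_le]
    exact ⟨by linarith [hx.1], hx.2⟩
  have h2 : |w - (-w)| = 2 * w := by rw [abs_of_pos (by linarith)]; ring
  rw [h2] at h1
  calc (2 * w)⁻¹ * ‖∫ x in (-w)..w, F (t + x)‖ ≤ (2 * w)⁻¹ * (M * (2 * w)) :=
        mul_le_mul_of_nonneg_left h1 (by positivity)
    _ = M := by field_simp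

lemma Av_norm_iter {w : ℝ} (hw : 0 < w) (n : ℕ) : ∀ {F : ℝ → ℂ} {t M : ℝ},
    (∀ x, |x - t| ≤ n * w → ‖F x‖ ≤ M) → ‖(Av w)^[n] F t‖ ≤ M := by
  induction n with
  | zero =>
    intro F t M h
    exact h t (by simp)
  | succ n ih =>
    intro F t M h
    rw [Function.iterate_succ_apply']
    refine Av_norm hw fun x hx => ih fun y hy => h y ?_
    have h1 : |y - t| ≤ |y - x| + |x - t| := abs_sub_le y x t
    push_cast
    linarith

lemma Av_exp {w : ℝ} (hw : 0 < w) (u t : ℝ) :
    Av w (fun t => Complex.exp (u * t * I)) t =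
      ((Real.sinc (w * u) : ℝ) : ℂ) * Complex.exp (u * t * I) := by
  unfold Av
  have h0 : ∀ x : ℝ, Complex.exp (u * ((t + x : ℝ) : ℂ) * I) =
      Complex.exp (u * t * I) * Complex.exp ((u * I) * x) := by
    intro x
    rw [← Complex.exp_add]
    congr 1
    push_cast
    ring
  simp_rw [h0]
  rw [intervalIntegral.integral_const_mul]
  by_cases hu : u = 0
  · subst hu
    have h1 : ((2 * w : ℝ) : ℂ) ≠ 0 := by
      exact_mod_cast (by positivity : (2 * w : ℝ) ≠ 0)
    simp only [ofReal_zero, zero_mul, Complex.exp_zero, intervalIntegral.integral_const, mul_zero,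
      Real.sinc_zero, ofReal_one]
    rw [Complex.real_smul, mul_one, one_mul, ← ofReal_mul]
    norm_cast
    field_simp
    ring
  · have hc : (u * I : ℂ) ≠ 0 := by
      simp [hu]
    rw [integral_exp_mul_complex hc, Real.sinc_of_ne_zero (mul_ne_zero hw.ne' hu)]
    have h2 : Complex.exp (u * I * (w : ℝ)) - Complex.exp (u * I * ((-w : ℝ) : ℂ)) =
        2 * I * ((Real.sin (w * u) : ℝ) : ℂ) := by
      rw [ofReal_sin, Complex.sin]
      push_cast
      have e1 : (u : ℂ) * I * w = w * u * I := by ring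
      have e2 : (u : ℂ) * I * -w = -(w * u) * I := by ring
      rw [e1, e2]
      have hI : I ^ 2 = -1 := I_sq
      field_simp
      rw [hI]
      ring
    rw [h2]
    push_cast
    have hu' : (u : ℂ) ≠ 0 := by exact_mod_cast hu
    have hw' : (w : ℂ) ≠ 0 := by exact_mod_cast hw.ne'
    field_simp

lemma Av_add {w : ℝ} {F G : ℝ → ℂ} (hF : Continuous F) (hG : Continuous G) :
    Av w (fun t => F t + G t) = fun t => Av w F t + Av w G t := by
  funext t
  unfold Av
  rw [intervalIntegral.integral_add, mul_add]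
  · exact Continuous.intervalIntegrable (by fun_prop) _ _
  · exact Continuous.intervalIntegrable (by fun_prop) _ _

lemma Av_sub {w : ℝ} {F G : ℝ → ℂ} (hF : Continuous F) (hG : Continuous G) :
    Av w (fun t => F t - G t) = fun t => Av w F t - Av w G t := by
  funext t
  unfold Av
  rw [intervalIntegral.integral_sub, mul_sub]
  · exact Continuous.intervalIntegrable (by fun_prop) _ _
  · exact Continuous.intervalIntegrable (by fun_prop) _ _

lemma Av_const {w : ℝ} (c : ℂ) (F : ℝ → ℂ) :
    Av w (fun t => c * F t) = fun t => c * Av w F t := by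
  funext t
  unfold Av
  rw [intervalIntegral.integral_const_mul]
  ring

lemma Av_add_iter {w : ℝ} (n : ℕ) {F G : ℝ → ℂ} (hF : Continuous F) (hG : Continuous G) :
    (Av w)^[n] (fun t => F t + G t) = fun t => (Av w)^[n] F t + (Av w)^[n] G t := by
  induction n with
  | zero => rfl
  | succ n ih =>
    rw [Function.iterate_succ_apply', ih, Av_add (Av_cont_iter n hF) (Av_cont_iter n hG),
      Function.iterate_succ_apply', Function.iterate_succ_apply']

lemma Av_sub_iter {w : ℝ} (n : ℕ) {F G : ℝ → ℂ} (hF : Continuous F) (hG : Continuous G) :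
    (Av w)^[n] (fun t => F t - G t) = fun t => (Av w)^[n] F t - (Av w)^[n] G t := by
  induction n with
  | zero => rfl
  | succ n ih =>
    rw [Function.iterate_succ_apply', ih, Av_sub (Av_cont_iter n hF) (Av_cont_iter n hG),
      Function.iterate_succ_apply', Function.iterate_succ_apply']

lemma Av_const_iter {w : ℝ} (n : ℕ) (c : ℂ) (F : ℝ → ℂ) :
    (Av w)^[n] (fun t => c * F t) = fun t => c * (Av w)^[n] F t := by
  induction n with
  | zero => rfl
  | succ n ih =>
    rw [Function.iterate_succ_apply', ih, Av_const, Function.iterate_succ_apply']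

/-- The average of a Fourier integral. -/
lemma Av_fourier {w : ℝ} (hw : 0 < w) {g : ℝ → ℂ} (hg : Integrable g) (t : ℝ) :
    Av w (fun t => ∫ u : ℝ, g u * Complex.exp (u * t * I)) t =
      ∫ u : ℝ, (((Real.sinc (w * u) : ℝ) : ℂ) * g u) * Complex.exp (u * t * I) := by
  have hsw : ∫ x in (-w)..w, ∫ u : ℝ, g u * Complex.exp (u * ((t + x : ℝ) : ℂ) * I) =
      ∫ u : ℝ, ∫ x in (-w)..w, g u * Complex.exp (u * ((t + x : ℝ) : ℂ) * I) := by
    rw [intervalIntegral.integral_of_le (by linarith)]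
    rw [MeasureTheory.integral_integral_swap]
    · congr 1
      funext u
      rw [intervalIntegral.integral_of_le (by linarith)]
    · have h1 : Integrable (fun z : ℝ × ℝ => g z.2)
          ((volume.restrict (Ioc (-w) w)).prod volume) := by
        have := (integrable_const (μ := volume.restrict (Ioc (-w) w)) (1 : ℂ)).mul_prod hg
        simpa using this
      refine h1.mono ?_ ?_
      · exact h1.aestronglyMeasurable.mul (Continuous.aestronglyMeasurable (by fun_prop))
      · filter_upwards with z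
        have h2 : ‖Complex.exp (z.2 * ((t + z.1 : ℝ) : ℂ) * I)‖ = 1 := by
          rw [← ofReal_mul]
          exact Complex.norm_exp_ofReal_mul_I _
        simp only [Function.uncurry]
        rw [norm_mul, h2, mul_one]
  show (((2 * w)⁻¹ : ℝ) : ℂ) * ∫ x in (-w)..w, ∫ u : ℝ, g u *
    Complex.exp (u * ((t + x : ℝ) : ℂ) * I) = _
  rw [hsw, ← integral_const_mul]
  congr 1
  funext u
  have h3 := Av_exp hw u t
  unfold Av at h3
  rw [intervalIntegral.integral_const_mul]
  calc (((2 * w)⁻¹ : ℝ) : ℂ) * (g u * ∫ x in (-w)..w, Complex.exp (u * ((t + x : ℝ) : ℂ) * I))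
      = g u * ((((2 * w)⁻¹ : ℝ) : ℂ) *
          ∫ x in (-w)..w, Complex.exp (u * ((t + x : ℝ) : ℂ) * I)) := by ring
    _ = g u * (((Real.sinc (w * u) : ℝ) : ℂ) * Complex.exp (u * t * I)) := by rw [h3]
    _ = _ := by ring

lemma sinc_int {w : ℝ} {g : ℝ → ℂ} (hg : Integrable g) (n : ℕ) :
    Integrable fun u : ℝ => ((Real.sinc (w * u) : ℝ) : ℂ) ^ n * g u := by
  refine hg.mono ?_ ?_
  · refine (Continuous.aestronglyMeasurable ?_).mul hg.aestronglyMeasurable
    have : Continuous fun u : ℝ => Real.sinc (w * u) :=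
      Real.continuous_sinc.comp (by fun_prop)
    fun_prop
  · filter_upwards with u
    rw [norm_mul, norm_pow, Complex.norm_real, Real.norm_eq_abs]
    have h1 : |Real.sinc (w * u)| ^ n ≤ 1 := pow_le_one₀ (abs_nonneg _) (Real.abs_sinc_le_one _)
    nlinarith [norm_nonneg (g u)]

/-- `n` averages of a Fourier integral. -/
lemma Av_fourier_iter {w : ℝ} (hw : 0 < w) (n : ℕ) {g : ℝ → ℂ} (hg : Integrable g) :
    (Av w)^[n] (fun t => ∫ u : ℝ, g u * Complex.exp (u * t * I)) =
      fun t : ℝ => ∫ u : ℝ, (((Real.sinc (w * u) : ℝ) : ℂ) ^ n * g u) *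
        Complex.exp (u * t * I) := by
  induction n with
  | zero =>
    funext t
    simp
  | succ n ih =>
    rw [Function.iterate_succ_apply', ih]
    funext t
    rw [Av_fourier hw (sinc_int hg n)]
    congr 1
    funext u
    ring

/-- The average is monotone and commutes with real parts; the `L¹` norm on an interval. -/
lemma Av_lint {w : ℝ} (hw : 0 < w) {F : ℝ → ℂ} (hF : Measurable F) (a b : ℝ) :
    ∫⁻ t in Icc a b, ‖Av w F t‖ₑ ≤ ∫⁻ t in Icc (a - w) (b + w), ‖F t‖ₑ := by
  have hm : Measurable fun z : ℝ × ℝ => ‖F (z.1 + z.2)‖ₑ :=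
    (hF.comp (measurable_fst.add measurable_snd)).enorm
  have h1 : ∀ t : ℝ, ‖Av w F t‖ₑ ≤ ENNReal.ofReal (2 * w)⁻¹ *
      ∫⁻ x in Icc (-w) w, ‖F (t + x)‖ₑ := by
    intro t
    unfold Av
    rw [enorm_mul]
    gcongr
    · rw [← ofReal_norm_eq_enorm, Complex.norm_real, Real.norm_eq_abs,
        abs_of_pos (by positivity)]
    · rw [intervalIntegral.integral_of_le (by linarith)]
      refine (enorm_integral_le_lintegral_enorm _).trans ?_
      exact lintegral_mono_set Ioc_subset_Icc_self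
  calc ∫⁻ t in Icc a b, ‖Av w F t‖ₑ
      ≤ ∫⁻ t in Icc a b, ENNReal.ofReal (2 * w)⁻¹ * ∫⁻ x in Icc (-w) w, ‖F (t + x)‖ₑ :=
        lintegral_mono fun t => h1 t
    _ = ENNReal.ofReal (2 * w)⁻¹ * ∫⁻ t in Icc a b, ∫⁻ x in Icc (-w) w, ‖F (t + x)‖ₑ := by
        rw [lintegral_const_mul]
        exact hm.lintegral_prod_right'
    _ = ENNReal.ofReal (2 * w)⁻¹ * ∫⁻ x in Icc (-w) w, ∫⁻ t in Icc a b, ‖F (t + x)‖ₑ := by
        rw [lintegral_lintegral_swap hm.aemeasurable]
    _ ≤ ENNReal.ofReal (2 * w)⁻¹ * ∫⁻ x in Icc (-w) w,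
          ∫⁻ t in Icc (a - w) (b + w), ‖F t‖ₑ := by
        gcongr ENNReal.ofReal (2 * w)⁻¹ * ?_
        refine setLIntegral_mono measurable_const fun x hx => ?_
        have e1 : ∫⁻ t in Icc a b, ‖F (t + x)‖ₑ = ∫⁻ t in Icc (a + x) (b + x), ‖F t‖ₑ := by
          rw [← lintegral_indicator measurableSet_Icc, ← lintegral_indicator measurableSet_Icc,
            ← lintegral_add_right_eq_self (fun t => (Icc (a + x) (b + x)).indicator
              (fun t => ‖F t‖ₑ) t) x]
          congr 1
          funext t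
          by_cases ht : t ∈ Icc a b
          · rw [indicator_of_mem ht, indicator_of_mem (show t + x ∈ Icc (a + x) (b + x) from
              ⟨by linarith [ht.1], by linarith [ht.2]⟩)]
          · rw [indicator_of_notMem ht, indicator_of_notMem]
            intro h
            exact ht ⟨by linarith [h.1], by linarith [h.2]⟩
        rw [e1]
        exact lintegral_mono_set (Icc_subset_Icc (by linarith [hx.1]) (by linarith [hx.2]))
    _ = ∫⁻ t in Icc (a - w) (b + w), ‖F t‖ₑ := by
        rw [setLIntegral_const, Real.volume_Icc, mul_comm (∫⁻ t in Icc (a - w) (b + w), ‖F t‖ₑ),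
          ← mul_assoc, ← ENNReal.ofReal_mul (by positivity)]
        have : (2 * w)⁻¹ * (w - -w) = 1 := by field_simp; ring
        rw [this, ENNReal.ofReal_one, one_mul]

lemma Av_lint_iter {w : ℝ} (hw : 0 < w) (n : ℕ) : ∀ {F : ℝ → ℂ}, Continuous F → ∀ a b : ℝ,
    ∫⁻ t in Icc a b, ‖(Av w)^[n] F t‖ₑ ≤ ∫⁻ t in Icc (a - n * w) (b + n * w), ‖F t‖ₑ := by
  induction n with
  | zero =>
    intro F _ a b
    simp
  | succ n ih =>
    intro F hF a b
    rw [Function.iterate_succ_apply']
    refine (Av_lint hw (Av_cont_iter n hF).measurable a b).trans ?_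
    refine (ih hF _ _).trans (lintegral_mono_set (Icc_subset_Icc ?_ ?_)) <;>
    · push_cast
      linarith

/-- Nonnegative real functions stay nonnegative and real. -/
noncomputable def Avr (w : ℝ) (F : ℝ → ℝ) (t : ℝ) : ℝ := (2 * w)⁻¹ * ∫ x in (-w)..w, F (t + x)

lemma Av_ofReal (w : ℝ) (F : ℝ → ℝ) :
    Av w (fun t => ((F t : ℝ) : ℂ)) = fun t => ((Avr w F t : ℝ) : ℂ) := by
  funext t
  unfold Av Avr
  rw [intervalIntegral.integral_ofReal, ← ofReal_mul]

lemma Av_ofReal_iter (w : ℝ) (n : ℕ) (F : ℝ → ℝ) :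
    (Av w)^[n] (fun t => ((F t : ℝ) : ℂ)) = fun t => (((Avr w)^[n] F t : ℝ) : ℂ) := by
  induction n with
  | zero => rfl
  | succ n ih => rw [Function.iterate_succ_apply', ih, Av_ofReal, Function.iterate_succ_apply']

lemma Avr_nonneg {w : ℝ} (hw : 0 < w) {F : ℝ → ℝ} (h : ∀ t, 0 ≤ F t) (t : ℝ) :
    0 ≤ Avr w F t := by
  unfold Avr
  refine mul_nonneg (by positivity) ?_
  exact intervalIntegral.integral_nonneg (by linarith) fun x _ => h _

lemma Avr_nonneg_iter {w : ℝ} (hw : 0 < w) (n : ℕ) {F : ℝ → ℝ} (h : ∀ t, 0 ≤ F t) (t : ℝ) :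
    0 ≤ (Avr w)^[n] F t := by
  induction n generalizing t with
  | zero => exact h t
  | succ n ih =>
    rw [Function.iterate_succ_apply']
    exact Avr_nonneg hw (fun t => ih t) t

lemma Av_one {w : ℝ} (hw : 0 < w) (c : ℂ) : Av w (fun _ => c) = fun _ => c := by
  funext t
  have h := Av_exp hw 0 t
  have h2 := congrFun (Av_const (w := w) c (fun t => Complex.exp ((0 : ℝ) * t * I))) t
  simp only [ofReal_zero, zero_mul, Complex.exp_zero, mul_one, mul_zero, Real.sinc_zero,
    ofReal_one] at h h2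
  rw [h2, h, mul_one]

lemma Av_one_iter {w : ℝ} (hw : 0 < w) (n : ℕ) (c : ℂ) :
    (Av w)^[n] (fun _ => c) = fun _ => c := by
  induction n with
  | zero => rfl
  | succ n ih => rw [Function.iterate_succ_apply', ih, Av_one hw]

end Pool.Agent.Lib.MP_6bc78b_nt.GP.H10A
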