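import Mathlib

/-! Project GP10 (MP_6bc78b_nt), the window: transforms of integrable functions. -/

set_option autoImplicit false

open Complex Filter Topology MeasureTheory Set
open scoped FourierTransform SchwartzMap ContDiff

namespace Pool.Agent.Lib.MP_6bc78b_nt.GP.H10F

/-- `F` is the transform of an integrable function of norm at most `m`. -/
def FTo (m : ℝ) (F : ℝ → ℂ) : Prop := ∃ f : ℝ → ℂ, Integrable f ∧ ∫ x, ‖f x‖ ≤ m ∧
  ∀ u : ℝ, F u = ∫ x : ℝ, f x * Complex.exp (u * x * I)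

lemma FTo.mono {m n : ℝ} {F : ℝ → ℂ} (h : FTo m F) (hmn : m ≤ n) : FTo n F := by
  obtain ⟨f, h1, h2, h3⟩ := h
  exact ⟨f, h1, h2.trans hmn, h3⟩

lemma FTo.congr {m : ℝ} {F G : ℝ → ℂ} (h : FTo m F) (hFG : ∀ u, F u = G u) : FTo m G := by
  obtain ⟨f, h1, h2, h3⟩ := h
  exact ⟨f, h1, h2, fun u => by rw [← hFG u, h3 u]⟩

lemma FTo.nonneg {m : ℝ} {F : ℝ → ℂ} (h : FTo m F) : 0 ≤ m := by
  obtain ⟨f, h1, h2, h3⟩ := h
  exact (integral_nonneg fun x => norm_nonneg _).trans h2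

lemma norm_e (u x : ℝ) : ‖Complex.exp (u * x * I)‖ = 1 := by
  have : (u * x * I : ℂ) = ((u * x : ℝ) : ℂ) * I := by push_cast; ring
  rw [this, Complex.norm_exp_ofReal_mul_I]

lemma int_e {f : ℝ → ℂ} (hf : Integrable f) (u : ℝ) :
    Integrable (fun x : ℝ => f x * Complex.exp (u * x * I)) := by
  refine hf.mul_bdd (c := 1) (by fun_prop) ?_
  exact ae_of_all _ fun x => (norm_e u x).le

lemma FTo.zero : FTo 0 (fun _ => 0) :=
  ⟨fun _ => 0, integrable_zero _ _ _, by simp, fun u => by simp⟩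

lemma FTo.add {m n : ℝ} {F G : ℝ → ℂ} (hF : FTo m F) (hG : FTo n G) :
    FTo (m + n) (fun u => F u + G u) := by
  obtain ⟨f, h1, h2, h3⟩ := hF
  obtain ⟨g, k1, k2, k3⟩ := hG
  refine ⟨fun x => f x + g x, h1.add k1, ?_, fun u => ?_⟩
  · calc ∫ x, ‖f x + g x‖ ≤ ∫ x, (‖f x‖ + ‖g x‖) :=
          integral_mono (h1.add k1).norm (h1.norm.add k1.norm) fun x => norm_add_le _ _
      _ = (∫ x, ‖f x‖) + ∫ x, ‖g x‖ := integral_add h1.norm k1.norm
      _ ≤ m + n := add_le_add h2 k2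
  · beta_reduce
    rw [h3 u, k3 u, ← integral_add (int_e h1 u) (int_e k1 u)]
    refine integral_congr_ae (ae_of_all _ fun x => ?_)
    simp only
    ring

lemma FTo.smul {m : ℝ} {F : ℝ → ℂ} (hF : FTo m F) (c : ℂ) :
    FTo (‖c‖ * m) (fun u => c * F u) := by
  obtain ⟨f, h1, h2, h3⟩ := hF
  refine ⟨fun x => c * f x, h1.const_mul c, ?_, fun u => ?_⟩
  · simp only [norm_mul]
    rw [integral_const_mul]
    exact mul_le_mul_of_nonneg_left h2 (norm_nonneg c)
  · beta_reduce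
    rw [h3 u, ← integral_const_mul]
    refine integral_congr_ae (ae_of_all _ fun x => ?_)
    simp only
    ring

lemma FTo.sum {ι : Type*} (s : Finset ι) {m : ι → ℝ} {F : ι → ℝ → ℂ}
    (h : ∀ i ∈ s, FTo (m i) (F i)) : FTo (∑ i ∈ s, m i) (fun u => ∑ i ∈ s, F i u) := by
  classical
  induction s using Finset.induction_on with
  | empty => simpa using FTo.zero
  | insert i s hi ih =>
    have h1 := (h i (Finset.mem_insert_self i s)).add
      (ih fun k hk => h k (Finset.mem_insert_of_mem hk))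
    simpa only [Finset.sum_insert hi] using h1

/-- Modulation. -/
lemma FTo.modul {m : ℝ} {F : ℝ → ℂ} (hF : FTo m F) (r : ℝ) :
    FTo m (fun u => Complex.exp (u * r * I) * F u) := by
  obtain ⟨f, h1, h2, h3⟩ := hF
  refine ⟨fun x => f (x - r), h1.comp_sub_right r, ?_, fun u => ?_⟩
  · have := integral_sub_right_eq_self (fun x => ‖f x‖) r (μ := volume)
    rw [this]
    exact h2
  · beta_reduce
    rw [h3 u, ← integral_const_mul]
    have := integral_sub_right_eq_self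
      (fun x : ℝ => Complex.exp (u * r * I) * (f x * Complex.exp (u * x * I))) r (μ := volume)
    rw [← this]
    refine integral_congr_ae (ae_of_all _ fun x => ?_)
    simp only
    rw [mul_left_comm, ← Complex.exp_add]
    congr 2
    push_cast
    ring

/-- Scaling. -/
lemma FTo.scale {m : ℝ} {F : ℝ → ℂ} (hF : FTo m F) {j : ℝ} (hj : 0 < j) :
    FTo m (fun u => F (u / j)) := by
  obtain ⟨f, h1, h2, h3⟩ := hF
  refine ⟨fun x => (j : ℂ) * f (j * x), (h1.comp_mul_left' hj.ne').const_mul _, ?_, fun u => ?_⟩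
  · simp only [norm_mul, Complex.norm_real, Real.norm_eq_abs, abs_of_pos hj]
    rw [integral_const_mul, Measure.integral_comp_mul_left (fun x => ‖f x‖) j, smul_eq_mul,
      abs_of_pos (inv_pos.mpr hj), ← mul_assoc, mul_inv_cancel₀ hj.ne', one_mul]
    exact h2
  · beta_reduce
    rw [h3 (u / j)]
    have h4 := Measure.integral_comp_mul_left
      (fun x : ℝ => f x * Complex.exp ((u / j : ℝ) * x * I)) j
    have h5 : ∫ x : ℝ, (j : ℂ) * f (j * x) * Complex.exp (u * x * I) =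
        (j : ℂ) * ∫ x : ℝ, f (j * x) * Complex.exp ((u / j : ℝ) * ((j * x : ℝ) : ℂ) * I) := by
      rw [← integral_const_mul]
      refine integral_congr_ae (ae_of_all _ fun x => ?_)
      simp only
      rw [mul_assoc]
      congr 3
      push_cast
      have : (j : ℂ) ≠ 0 := by exact_mod_cast hj.ne'
      field_simp
    rw [h5, h4, abs_of_pos (inv_pos.mpr hj), Complex.real_smul, ← mul_assoc]
    push_cast
    rw [mul_inv_cancel₀ (by exact_mod_cast hj.ne'), one_mul]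

/-- Product. -/
lemma FTo.mul {m n : ℝ} {F G : ℝ → ℂ} (hF : FTo m F) (hG : FTo n G) :
    FTo (m * n) (fun u => F u * G u) := by
  have hm := hF.nonneg
  obtain ⟨f, h1, h2, h3⟩ := hF
  obtain ⟨g, k1, k2, k3⟩ := hG
  refine ⟨fun x => ∫ y, f y * g (x - y), ?_, ?_, fun u => ?_⟩
  · exact h1.integrable_convolution (ContinuousLinearMap.mul ℂ ℂ) k1
  · have h4 : ∀ x, ‖∫ y, f y * g (x - y)‖ ≤ ∫ y, ‖f y‖ * ‖g (x - y)‖ := fun x => by
      refine (norm_integral_le_integral_norm _).trans (le_of_eq ?_)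
      simp only [norm_mul]
    have h5 : Integrable (fun x => ∫ y, ‖f y‖ * ‖g (x - y)‖) :=
      h1.norm.integrable_convolution (ContinuousLinearMap.mul ℝ ℝ) k1.norm
    have h6 : ∫ x, ∫ y, ‖f y‖ * ‖g (x - y)‖ = (∫ x, ‖f x‖) * ∫ x, ‖g x‖ :=
      integral_convolution (ContinuousLinearMap.mul ℝ ℝ) h1.norm k1.norm
    calc ∫ x, ‖∫ y, f y * g (x - y)‖ ≤ ∫ x, ∫ y, ‖f y‖ * ‖g (x - y)‖ :=
          integral_mono (h1.integrable_convolution (ContinuousLinearMap.mul ℂ ℂ) k1).norm h5 h4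
      _ = (∫ x, ‖f x‖) * ∫ x, ‖g x‖ := h6
      _ ≤ m * n := mul_le_mul h2 k2 (integral_nonneg fun x => norm_nonneg _) hm
  · have h6 : ∫ x : ℝ, ∫ y : ℝ, (f y * Complex.exp (u * y * I)) *
        (g (x - y) * Complex.exp (u * ((x - y : ℝ) : ℂ) * I)) =
        (∫ x : ℝ, f x * Complex.exp (u * x * I)) * ∫ x : ℝ, g x * Complex.exp (u * x * I) :=
      integral_convolution (ContinuousLinearMap.mul ℂ ℂ) (int_e h1 u) (int_e k1 u)
    beta_reduce
    rw [h3 u, k3 u, ← h6]
    refine integral_congr_ae (ae_of_all _ fun x => ?_)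
    simp only
    rw [← integral_mul_const]
    refine integral_congr_ae (ae_of_all _ fun y => ?_)
    simp only
    have : Complex.exp (u * x * I) = Complex.exp (u * y * I) *
        Complex.exp (u * ((x - y : ℝ) : ℂ) * I) := by
      rw [← Complex.exp_add]
      congr 1
      push_cast
      ring
    rw [this]
    ring

/-- Gaussians. -/
lemma FTo.gauss {H : ℝ} (hH : 0 < H) :
    FTo 1 (fun u => ((Real.exp (-(H ^ 2 * u ^ 2 / 2)) : ℝ) : ℂ)) := by
  have hb : 0 < 1 / (2 * H ^ 2) := by positivity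
  have hsq : 0 < Real.sqrt (2 * Real.pi) := Real.sqrt_pos.mpr (by positivity)
  set c : ℝ := 1 / (H * Real.sqrt (2 * Real.pi)) with hc
  have hc0 : 0 < c := by positivity
  have hint : Integrable (fun x : ℝ => Real.exp (-(1 / (2 * H ^ 2)) * x ^ 2)) :=
    integrable_exp_neg_mul_sq hb
  have hval : ∫ x : ℝ, Real.exp (-(1 / (2 * H ^ 2)) * x ^ 2) = H * Real.sqrt (2 * Real.pi) := by
    rw [integral_gaussian]
    have : Real.pi / (1 / (2 * H ^ 2)) = H ^ 2 * (2 * Real.pi) := by field_simp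
    rw [this, Real.sqrt_mul (by positivity), Real.sqrt_sq hH.le]
  refine ⟨fun x => ((c * Real.exp (-(1 / (2 * H ^ 2)) * x ^ 2) : ℝ) : ℂ),
    (hint.const_mul c).ofReal, ?_, fun u => ?_⟩
  · have h1 : ∀ x : ℝ, ‖((c * Real.exp (-(1 / (2 * H ^ 2)) * x ^ 2) : ℝ) : ℂ)‖ =
        c * Real.exp (-(1 / (2 * H ^ 2)) * x ^ 2) := fun x => by
      rw [Complex.norm_real, Real.norm_eq_abs, abs_of_pos (by positivity)]
    simp only [h1]
    rw [integral_const_mul, hval, hc]
    exact le_of_eq (by field_simp)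
  · have h2 := fourierIntegral_gaussian (b := ((1 / (2 * H ^ 2) : ℝ) : ℂ))
      (by rw [Complex.ofReal_re]; exact hb) (u : ℂ)
    have h3 : ∀ x : ℝ, ((c * Real.exp (-(1 / (2 * H ^ 2)) * x ^ 2) : ℝ) : ℂ) *
        Complex.exp (u * x * I) = (c : ℂ) * (Complex.exp (I * u * x) *
          Complex.exp (-((1 / (2 * H ^ 2) : ℝ) : ℂ) * x ^ 2)) := fun x => by
      push_cast
      rw [show (u : ℂ) * x * I = I * u * x by ring]
      ring
    simp only [h3]
    rw [integral_const_mul, h2]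
    have h4 : ((Real.pi : ℂ) / ((1 / (2 * H ^ 2) : ℝ) : ℂ)) ^ (1 / 2 : ℂ) =
        ((H * Real.sqrt (2 * Real.pi) : ℝ) : ℂ) := by
      have h5 : (Real.pi : ℂ) / ((1 / (2 * H ^ 2) : ℝ) : ℂ) =
          ((H ^ 2 * (2 * Real.pi) : ℝ) : ℂ) := by
        push_cast
        have : (H : ℂ) ≠ 0 := by exact_mod_cast hH.ne'
        field_simp
      rw [h5, show (1 / 2 : ℂ) = ((1 / 2 : ℝ) : ℂ) by push_cast; ring,
        ← Complex.ofReal_cpow (by positivity), ← Real.sqrt_eq_rpow,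
        Real.sqrt_mul (by positivity), Real.sqrt_sq hH.le]
    rw [h4, ← mul_assoc, ← Complex.ofReal_mul]
    have h6 : c * (H * Real.sqrt (2 * Real.pi)) = 1 := by
      rw [hc]
      field_simp
    rw [h6, Complex.ofReal_one, one_mul, Complex.ofReal_exp]
    congr 1
    push_cast
    have : (H : ℂ) ≠ 0 := by exact_mod_cast hH.ne'
    field_simp
    norm_num

/-- Schwartz functions. -/
lemma FTo.schwartz (F : 𝓢(ℝ, ℂ)) : ∃ C : ℝ, 0 < C ∧ FTo C F := by
  have h2pi : (0 : ℝ) < 2 * Real.pi := by positivity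
  have hi : Integrable (𝓕 (F : ℝ → ℂ)) := by
    have := (𝓕 F : 𝓢(ℝ, ℂ)).integrable (μ := volume)
    simpa [SchwartzMap.fourier_coe] using this
  set f : ℝ → ℂ := fun x => ((1 / (2 * Real.pi) : ℝ) : ℂ) * 𝓕 (F : ℝ → ℂ) (x / (2 * Real.pi)) with hf
  have hfi : Integrable f := (hi.comp_div h2pi.ne').const_mul _
  refine ⟨(∫ x, ‖f x‖) + 1, by
    have : 0 ≤ ∫ x, ‖f x‖ := integral_nonneg fun x => norm_nonneg _
    linarith, f, hfi, by linarith, fun u => ?_⟩
  have h1 : 𝓕⁻ (𝓕 (F : ℝ → ℂ)) u = F u :=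
    F.integrable.fourierInv_fourier_eq hi F.continuous.continuousAt
  rw [← h1, Real.fourierInv_eq']
  have h4 := Measure.integral_comp_div
    (fun v : ℝ => Complex.exp ((2 * Real.pi * (v * u) : ℝ) * I) * 𝓕 (F : ℝ → ℂ) v)
    (2 * Real.pi)
  have h5 : ∫ v : ℝ, Complex.exp ((2 * Real.pi * inner ℝ v u : ℝ) * I) • 𝓕 (F : ℝ → ℂ) v =
      ∫ v : ℝ, Complex.exp ((2 * Real.pi * (v * u) : ℝ) * I) * 𝓕 (F : ℝ → ℂ) v := by
    refine integral_congr_ae (ae_of_all _ fun v => ?_)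
    simp only [smul_eq_mul]
    congr 4
    simp [mul_comm]
  have h6 : ∫ x : ℝ, f x * Complex.exp (u * x * I) = ((1 / (2 * Real.pi) : ℝ) : ℂ) *
      ∫ x : ℝ, Complex.exp ((2 * Real.pi * (x / (2 * Real.pi) * u) : ℝ) * I) *
        𝓕 (F : ℝ → ℂ) (x / (2 * Real.pi)) := by
    rw [← integral_const_mul]
    refine integral_congr_ae (ae_of_all _ fun x => ?_)
    simp only [hf]
    have : ((2 * Real.pi * (x / (2 * Real.pi) * u) : ℝ) : ℂ) * I = (u : ℂ) * x * I := by
      have h7 : 2 * Real.pi * (x / (2 * Real.pi) * u) = u * x := by field_simp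
      rw [h7]
      push_cast
      ring
    rw [this]
    ring
  rw [h6, h4, abs_of_pos h2pi, Complex.real_smul, ← mul_assoc, ← Complex.ofReal_mul]
  have h8 : 1 / (2 * Real.pi) * (2 * Real.pi) = 1 := by field_simp
  rw [h8, Complex.ofReal_one, one_mul]
  exact h5

/-! ## The cutoff -/

/-- A smooth cutoff. -/
noncomputable def bump : ContDiffBump (0 : ℝ) := ⟨1 / 2, 1, by norm_num, by norm_num⟩

noncomputable def psi (u : ℝ) : ℝ := bump u

lemma psi_smooth : ContDiff ℝ ∞ psi := bump.contDiff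

lemma psi_cont : Continuous psi := psi_smooth.continuous

lemma psi_nonneg (u : ℝ) : 0 ≤ psi u := bump.nonneg

lemma psi_le (u : ℝ) : psi u ≤ 1 := bump.le_one

lemma psi_one {u : ℝ} (h : |u| ≤ 1 / 2) : psi u = 1 := by
  refine bump.one_of_mem_closedBall ?_
  rw [Metric.mem_closedBall, Real.dist_eq, sub_zero]
  exact h

lemma psi_zero {u : ℝ} (h : 1 ≤ |u|) : psi u = 0 := by
  refine bump.zero_of_le_dist ?_
  rw [Real.dist_eq, sub_zero]
  exact h

lemma psi_FTo : ∃ C : ℝ, 0 < C ∧ FTo C (fun u => (psi u : ℂ)) := by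
  have h1 : HasCompactSupport (fun u : ℝ => (psi u : ℂ)) := by
    refine HasCompactSupport.of_support_subset_isCompact (isCompact_Icc (a := (-1 : ℝ)) (b := 1))
      fun u hu => ?_
    by_contra h
    apply hu
    have : 1 ≤ |u| := by
      by_contra h'
      exact h (abs_le.mp (not_le.mp h').le)
    simp [psi_zero this]
  have h2 : ContDiff ℝ ∞ (fun u : ℝ => (psi u : ℂ)) :=
    Complex.ofRealCLM.contDiff.comp psi_smooth
  exact FTo.schwartz (h1.toSchwartzMap h2)

/-- One dyadic block. -/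
noncomputable def eta (v : ℝ) : ℝ := (v ^ 8)⁻¹ * (psi (v / 2) - psi v)

lemma eta_smooth : ContDiff ℝ ∞ eta := by
  rw [contDiff_iff_contDiffAt]
  intro v
  by_cases hv : v = 0
  · have h1 : eta =ᶠ[𝓝 v] fun _ => 0 := by
      have h2 : Metric.ball v (1 / 2) ∈ 𝓝 v := Metric.ball_mem_nhds v (by norm_num)
      filter_upwards [h2] with x hx
      rw [hv, Metric.mem_ball, Real.dist_eq, sub_zero] at hx
      unfold eta
      rw [psi_one hx.le, psi_one (by rw [abs_div, abs_two]; linarith [abs_nonneg x]), sub_self,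
        mul_zero]
    exact contDiffAt_const.congr_of_eventuallyEq h1
  · unfold eta
    refine ContDiffAt.mul ?_ ?_
    · exact ContDiffAt.inv (by fun_prop) (pow_ne_zero 8 hv)
    · have h1 : ContDiff ℝ ∞ (fun v : ℝ => psi (v / 2)) := psi_smooth.comp (by fun_prop)
      exact (h1.sub psi_smooth).contDiffAt

lemma eta_FTo : ∃ C : ℝ, 0 < C ∧ FTo C (fun u => (eta u : ℂ)) := by
  have h1 : HasCompactSupport (fun u : ℝ => (eta u : ℂ)) := by
    refine HasCompactSupport.of_support_subset_isCompact (isCompact_Icc (a := (-2 : ℝ)) (b := 2))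
      fun u hu => ?_
    by_contra h
    apply hu
    have h3 : 2 ≤ |u| := by
      by_contra h'
      exact h (abs_le.mp (not_le.mp h').le)
    have h4 : 1 ≤ |u / 2| := by
      rw [abs_div, abs_two]
      linarith
    have h5 : 1 ≤ |u| := by linarith
    simp [eta, psi_zero h4, psi_zero h5]
  have h2 : ContDiff ℝ ∞ (fun u : ℝ => (eta u : ℂ)) :=
    Complex.ofRealCLM.contDiff.comp eta_smooth
  exact FTo.schwartz (h1.toSchwartzMap h2)

lemma telesc (n : ℕ) (v : ℝ) : (v ^ 8)⁻¹ * (psi (v / 2 ^ n) - psi v) =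
    ∑ i ∈ Finset.range n, ((2 : ℝ) ^ i) ^ (-8 : ℤ) * eta (v / 2 ^ i) := by
  induction n with
  | zero => simp
  | succ n ih =>
    rw [Finset.sum_range_succ, ← ih]
    unfold eta
    have h2 : (0 : ℝ) < 2 ^ n := by positivity
    have h3 : v / 2 ^ n / 2 = v / 2 ^ (n + 1) := by
      rw [pow_succ]
      field_simp
    rw [h3, div_pow, inv_div]
    have h4 : ((2 : ℝ) ^ n) ^ (-8 : ℤ) * ((2 ^ n) ^ 8 / v ^ 8) = (v ^ 8)⁻¹ := by
      rw [zpow_neg]
      have : ((2 : ℝ) ^ n) ^ (8 : ℤ) = (2 ^ n) ^ 8 := by norm_cast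
      rw [this]
      by_cases hv : v = 0
      · subst hv
        simp
      · field_simp
    rw [← mul_assoc, h4]
    ring

/-- The main block, uniformly in `J`. -/
lemma block : ∃ C : ℝ, 0 < C ∧ ∀ J : ℝ, 2 ≤ J →
    FTo C (fun v => (((v ^ 8)⁻¹ * (psi (v / J) - psi v) : ℝ) : ℂ)) := by
  obtain ⟨A, hA, h1⟩ := psi_FTo
  obtain ⟨B, hB, h2⟩ := eta_FTo
  refine ⟨2 * B * A, by positivity, fun J hJ => ?_⟩
  have hJ0 : 0 < J := by linarith
  obtain ⟨n, hn⟩ : ∃ n : ℕ, 2 * J ≤ 2 ^ n := by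
    obtain ⟨n, hn⟩ := pow_unbounded_of_one_lt (2 * J) (by norm_num : (1 : ℝ) < 2)
    exact ⟨n, hn.le⟩
  have h3 : FTo (2 * B) (fun v => (((v ^ 8)⁻¹ * (psi (v / 2 ^ n) - psi v) : ℝ) : ℂ)) := by
    have h4 : FTo (∑ i ∈ Finset.range n, ‖(((2 : ℝ) ^ i) ^ (-8 : ℤ) : ℂ)‖ * B)
        (fun v => ∑ i ∈ Finset.range n, (((2 : ℝ) ^ i) ^ (-8 : ℤ) : ℂ) * (eta (v / 2 ^ i) : ℂ)) := by
      refine FTo.sum _ fun i _ => ?_
      exact (h2.scale (by positivity : (0 : ℝ) < 2 ^ i)).smul _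
    refine (h4.mono ?_).congr fun v => ?_
    · rw [← Finset.sum_mul]
      refine mul_le_mul_of_nonneg_right ?_ hB.le
      have h5 : ∀ i ∈ Finset.range n, ‖(((2 : ℝ) ^ i) ^ (-8 : ℤ) : ℂ)‖ ≤ (1 / 2 : ℝ) ^ i := by
        intro i _
        have h6 : (((2 : ℝ) ^ i) ^ (-8 : ℤ) : ℂ) = ((((2 : ℝ) ^ i) ^ 8)⁻¹ : ℝ) := by
          push_cast
          rw [zpow_neg]
          norm_cast
        rw [h6, Complex.norm_real, Real.norm_eq_abs, abs_of_nonneg (by positivity),
          one_div, inv_pow]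
        apply inv_anti₀ (by positivity)
        exact le_self_pow₀ (one_le_pow₀ (by norm_num)) (by norm_num)
      refine (Finset.sum_le_sum h5).trans ?_
      have h7 := sum_geometric_two_le n
      exact h7
    · rw [telesc n v]
      push_cast
      rfl
  refine (h3.mul (h1.scale hJ0)).congr fun v => ?_
  rw [← Complex.ofReal_mul]
  congr 1
  by_cases hv : |v| < J
  · have h5 : psi (v / 2 ^ n) = 1 := by
      apply psi_one
      rw [abs_div, abs_of_pos (by positivity : (0 : ℝ) < 2 ^ n), div_le_iff₀ (by positivity)]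
      linarith
    rw [h5]
    by_cases hv1 : |v| < 1
    · have h6 : psi (v / J) = 1 := by
        apply psi_one
        rw [abs_div, abs_of_pos hJ0, div_le_iff₀ hJ0]
        linarith
      rw [h6]
      ring
    · rw [psi_zero (not_lt.mp hv1)]
      ring
  · have h5 : psi (v / J) = 0 := by
      apply psi_zero
      rw [abs_div, abs_of_pos hJ0, le_div_iff₀ hJ0]
      linarith
    have h6 : psi v = 0 := psi_zero (by linarith [not_lt.mp hv])
    rw [h5, h6]
    ring

lemma FTo.sin {m : ℝ} {F : ℝ → ℂ} (hF : FTo m F) (w : ℝ) :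
    FTo m (fun u => (Real.sin (w * u) : ℂ) * F u) := by
  have h1 := (hF.modul w).smul (-I / 2)
  have h2 := (hF.modul (-w)).smul (I / 2)
  refine ((h1.add h2).mono (le_of_eq ?_)).congr fun u => ?_
  · rw [norm_div, norm_div, norm_neg, Complex.norm_I, RCLike.norm_ofNat]
    ring
  · rw [Complex.ofReal_sin, Complex.sin]
    push_cast
    rw [show (-((w : ℂ) * u) * I) = (u : ℂ) * -w * I by ring,
      show ((w : ℂ) * u * I) = (u : ℂ) * w * I by ring]
    ring

lemma FTo.sin_pow {m : ℝ} {F : ℝ → ℂ} (hF : FTo m F) (w : ℝ) (n : ℕ) :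
    FTo m (fun u => (Real.sin (w * u) : ℂ) ^ n * F u) := by
  induction n with
  | zero => exact hF.congr fun u => by rw [pow_zero, one_mul]
  | succ n ih => exact (ih.sin w).congr fun u => by rw [pow_succ]; ring

/-- The pieces of the window. -/
theorem spl : ∃ C : ℝ, 0 < C ∧ ∀ w H j J : ℝ, 0 < w → 0 < H → 0 < j → 2 * j ≤ J →
    FTo (C * (w * j) ^ (-8 : ℤ)) (fun u => ((Real.sinc (w * u) ^ 8 *
      Real.exp (-(H ^ 2 * u ^ 2 / 2)) * (psi (u / J) - psi (u / j)) : ℝ) : ℂ)) := by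
  obtain ⟨C, hC, h⟩ := block
  refine ⟨C, hC, fun w H j J hw hH hj hJ => ?_⟩
  have h1 := (h (J / j) (by rw [le_div_iff₀ hj]; exact hJ)).scale hj
  have h2 := ((h1.mul (FTo.gauss hH)).sin_pow w 8).smul (((w * j) ^ (-8 : ℤ) : ℝ) : ℂ)
  refine (h2.mono (le_of_eq ?_)).congr fun u => ?_
  · rw [Complex.norm_real, Real.norm_eq_abs, abs_of_nonneg (by positivity), mul_one, mul_comm]
  · rw [← Complex.ofReal_mul, ← Complex.ofReal_pow, ← Complex.ofReal_mul, ← Complex.ofReal_mul]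
    congr 1
    have h3 : u / j / (J / j) = u / J := by field_simp
    rw [h3]
    by_cases hu : u = 0
    · subst hu
      simp
    · rw [Real.sinc_of_ne_zero (mul_ne_zero hw.ne' hu), zpow_neg]
      have h4 : (w * j) ^ (8 : ℤ) = (w * j) ^ 8 := by norm_cast
      rw [h4]
      field_simp

end Pool.Agent.Lib.MP_6bc78b_nt.GP.H10F
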