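import Pool.Agent.Lib.MP_6bc78b_nt.GP.H62.Defs9a

/-! Project GP9 (MP_6bc78b_nt), row GOODX: all blocks of a scale are small. -/

set_option autoImplicit false

open Complex Filter Topology MeasureTheory ArithmeticFunction Set
open scoped ENNReal

namespace Pool.Agent.Lib.MP_6bc78b_nt.GP.H10G

open Pool.Agent.Lib.MP_6bc78b_nt.GP Pool.Agent.Lib.MP_6bc78b_nt.GP.G7
  Pool.Agent.Lib.MP_6bc78b_nt.GP.G8 Pool.Agent.Lib.MP_6bc78b_nt.GP.G9

lemma Mb_eq_DP (ε η y T t : ℝ) : Mb ε η y T t =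
    DP (fun m => if ⌊ε * T / y⌋₊ < m then (ff η T m : ℂ) else 0) ⌊T / (ε * y)⌋₊ t := by
  classical
  unfold Mb DP
  have h1 : Finset.Ioc ⌊ε * T / y⌋₊ ⌊T / (ε * y)⌋₊ =
      (Finset.Icc 1 ⌊T / (ε * y)⌋₊).filter (fun m => ⌊ε * T / y⌋₊ < m) := by
    ext m
    simp only [Finset.mem_Ioc, Finset.mem_filter, Finset.mem_Icc]
    omega
  rw [h1, Finset.sum_filter]
  refine Finset.sum_congr rfl fun m _ => ?_
  by_cases h : ⌊ε * T / y⌋₊ < m
  · simp only [h, if_true]
  · simp only [h, if_false, zero_mul]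

lemma cont_Mb (ε η y T : ℝ) : Continuous (Mb ε η y T) := by
  unfold Mb
  refine continuous_finsetSum _ fun m hm => ?_
  have hm0 : (m : ℂ) ≠ 0 := by
    have := (Finset.mem_Ioc.mp hm).1
    exact_mod_cast (by omega : m ≠ 0)
  refine continuous_const.mul (Continuous.const_cpow (by fun_prop) (Or.inl hm0))

/-- One block. -/
lemma Mb_int (hbas : BASXStatement) {CM a ε η y T h : ℝ} (hCM : 0 < CM)
    (hM : ∀ (N : ℕ) (c : ℕ → ℂ) (b : ℝ), 0 < b → b ≤ 1 →
      ∫⁻ t : ℝ, ENNReal.ofReal (‖DP c N t‖ ^ 2 * Real.exp (-(b * |t|))) ≤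
        ENNReal.ofReal (CM * ∑ n ∈ Finset.Icc 1 N, (1 / b + n) * ‖c n‖ ^ 2 / (n : ℝ) ^ 2))
    (ha : 0 < a) (hε : 0 < ε) (hε1 : ε < 1) (hη : 0 < η) (hT : 3 ≤ T) (hTe : 1 / ε ≤ T)
    (hy : 1 ≤ y) (hyh : y ≤ h) (hb : a * h / T ≤ 1) :
    ∫⁻ t : ℝ, ENNReal.ofReal (‖Mb ε η y T t‖ ^ 2 * Real.exp (-(a * h / T * |t|))) ≤
      ENNReal.ofReal (CM * (16 * Real.log T ^ 4 * (1 / (a * ε) + 1) / ε ^ 2)) := by
  have hT0 : 0 < T := by linarith
  have hy0 : 0 < y := by linarith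
  have hh0 : 0 < h := by linarith
  set b : ℝ := a * h / T with hbdef
  have hb0 : 0 < b := by positivity
  simp only [Mb_eq_DP]
  refine (hM _ _ b hb0 hb).trans (ENNReal.ofReal_le_ofReal (mul_le_mul_of_nonneg_left ?_ hCM.le))
  set N1 : ℕ := ⌊ε * T / y⌋₊ with hN1
  set N2 : ℕ := ⌊T / (ε * y)⌋₊ with hN2
  set X : ℝ := ε * T / y with hX
  have hX0 : 0 < X := by positivity
  have hbX : a * ε ≤ b * X := by
    rw [hbdef, hX]
    have h1 : a * h / T * (ε * T / y) = a * ε * (h / y) := by field_simp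
    rw [h1]
    have h2 : 1 ≤ h / y := by rwa [one_le_div hy0]
    have h3 : 0 < a * ε := by positivity
    nlinarith
  have hL0 : 0 ≤ Real.log T := Real.log_nonneg (by linarith)
  have hN2le : (N2 : ℝ) ≤ T / (ε * y) := Nat.floor_le (by positivity)
  have hterm : ∀ n ∈ Finset.Icc 1 N2, (1 / b + n) *
      ‖(if N1 < n then (ff η T n : ℂ) else 0)‖ ^ 2 / (n : ℝ) ^ 2 ≤
      16 * Real.log T ^ 4 * (1 / (a * ε) + 1) / X := by
    intro n hn
    obtain ⟨hn1, hn2⟩ := Finset.mem_Icc.mp hn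
    have hn0 : (0 : ℝ) < n := by exact_mod_cast (by omega : 0 < n)
    by_cases h : N1 < n
    · simp only [h, if_true, Complex.norm_real, Real.norm_eq_abs, sq_abs]
      have hXn : X ≤ n := (Nat.lt_of_floor_lt h).le
      have g1 := hbas.2.2.1 η T n hT hη
      have g2 := hbas.2.1 n
      have hnT : (n : ℝ) ≤ T ^ 2 := by
        have h1 : (n : ℝ) ≤ T / (ε * y) := (Nat.cast_le.mpr hn2).trans hN2le
        have h2 : T / (ε * y) ≤ T / ε := by
          apply div_le_div_of_nonneg_left hT0.le hε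
          nlinarith
        have h3 : T / ε = T * (1 / ε) := by ring
        nlinarith
      have hlog : Real.log n ≤ 2 * Real.log T := by
        have := Real.log_le_log hn0 hnT
        rwa [Real.log_pow] at this
      have hlog0 : 0 ≤ Real.log (n : ℝ) := Real.log_natCast_nonneg n
      have hff : ff η T n ^ 2 ≤ 16 * Real.log T ^ 4 := by
        have h1 : ff η T n ≤ (2 * Real.log T) ^ 2 :=
          (g1.2.trans g2.2).trans (pow_le_pow_left₀ hlog0 hlog 2)
        calc ff η T n ^ 2 ≤ ((2 * Real.log T) ^ 2) ^ 2 := pow_le_pow_left₀ g1.1 h1 2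
          _ = 16 * Real.log T ^ 4 := by ring
      have hfac : (1 / b + n) / (n : ℝ) ^ 2 ≤ (1 / (a * ε) + 1) / X := by
        have h1 : (1 / b + n) / (n : ℝ) ^ 2 = 1 / (n : ℝ) * (1 / (b * n) + 1) := by
          field_simp
        rw [h1]
        have h2 : 1 / (n : ℝ) ≤ 1 / X := one_div_le_one_div_of_le hX0 hXn
        have h3 : 1 / (b * n) ≤ 1 / (a * ε) := by
          apply one_div_le_one_div_of_le (by positivity)
          exact hbX.trans (mul_le_mul_of_nonneg_left hXn hb0.le)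
        calc 1 / (n : ℝ) * (1 / (b * n) + 1) ≤ 1 / X * (1 / (a * ε) + 1) :=
              mul_le_mul h2 (by linarith) (by positivity) (by positivity)
          _ = (1 / (a * ε) + 1) / X := by ring
      calc (1 / b + n) * ff η T n ^ 2 / (n : ℝ) ^ 2 =
            ff η T n ^ 2 * ((1 / b + n) / (n : ℝ) ^ 2) := by ring
        _ ≤ 16 * Real.log T ^ 4 * ((1 / (a * ε) + 1) / X) :=
            mul_le_mul hff hfac (by positivity) (by positivity)
        _ = 16 * Real.log T ^ 4 * (1 / (a * ε) + 1) / X := by ring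
    · simp only [h, if_false, norm_zero]
      have : (0 : ℝ) ≤ 16 * Real.log T ^ 4 * (1 / (a * ε) + 1) / X := by positivity
      simpa using this
  refine (Finset.sum_le_sum hterm).trans ?_
  rw [Finset.sum_const, Nat.card_Icc, nsmul_eq_mul, Nat.add_sub_cancel]
  calc (N2 : ℝ) * (16 * Real.log T ^ 4 * (1 / (a * ε) + 1) / X) ≤
      T / (ε * y) * (16 * Real.log T ^ 4 * (1 / (a * ε) + 1) / X) :=
        mul_le_mul_of_nonneg_right hN2le (by positivity)
    _ = 16 * Real.log T ^ 4 * (1 / (a * ε) + 1) / ε ^ 2 := by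
        rw [hX]
        field_simp

/-- GOODX. -/
theorem goodx (hm : MVTXStatement) (hbas : BASXStatement) : GOODXStatement := by
  intro a ε ha hε hε1
  obtain ⟨CM, hCM, hM⟩ := hm
  refine ⟨CM * (16 * (1 / (a * ε) + 1) / ε ^ 2), by positivity, ?_⟩
  intro η κ c K hη hη1 hκ hκ1 hc hc1 hK
  have hev : ∀ᶠ T : ℝ in atTop, a * Real.log T ^ 2 ≤ T := by
    have h1 := (isLittleO_log_rpow_rpow_atTop ((2 : ℕ) : ℝ) (one_pos)).bound
      (show (0 : ℝ) < 1 / a by positivity)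
    filter_upwards [h1, Real.tendsto_log_atTop.eventually_ge_atTop 1,
      eventually_ge_atTop (1 : ℝ)] with T h2 h3 h5
    rw [Real.rpow_natCast, Real.rpow_one, Real.norm_of_nonneg (by positivity),
      Real.norm_of_nonneg (by linarith), div_mul_eq_mul_div, one_mul,
      le_div_iff₀ ha] at h2
    linarith
  obtain ⟨T1, hT1⟩ := eventually_atTop.mp hev
  refine ⟨max T1 (max 11 (1 / ε)), lt_of_lt_of_le (by norm_num)
    ((le_max_left _ _).trans (le_max_right _ _)), ?_⟩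
  intro T h P hT hP hQh hhL hW
  have hTT1 : T1 ≤ T := (le_max_left _ _).trans hT
  have hT11 : 11 ≤ T := ((le_max_left _ _).trans (le_max_right _ _)).trans hT
  have hTe : 1 / ε ≤ T := ((le_max_right _ _).trans (le_max_right _ _)).trans hT
  have hT0 : 0 < T := by linarith
  set n : ℕ := nb P κ K with hn
  have hyQ : ∀ v ∈ Finset.range n, 1 ≤ yb P κ v ∧ yb P κ v ≤ h := by
    intro v hv
    have hv' : v < n := Finset.mem_range.mp hv
    have h0 : (0 : ℝ) ≤ v := Nat.cast_nonneg v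
    constructor
    · unfold yb
      have h1 : 1 ≤ Real.exp (κ * v) := Real.one_le_exp (by positivity)
      nlinarith
    · refine le_trans ?_ hQh
      unfold QE yb
      have h1 : (v : ℝ) ≤ (nb P κ K : ℝ) := Nat.cast_le.mpr hv'.le
      have h2 : Real.exp (κ * v) ≤ Real.exp (κ * (nb P κ K : ℝ)) :=
        Real.exp_le_exp.mpr (mul_le_mul_of_nonneg_left h1 hκ.le)
      nlinarith
  have hh1 : 1 ≤ h := by
    refine le_trans ?_ hQh
    unfold QE yb
    have h1 : 1 ≤ Real.exp (κ * (nb P κ K : ℝ)) := Real.one_le_exp (by positivity)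
    nlinarith
  have hb1 : a * h / T ≤ 1 := by
    rw [div_le_one hT0]
    exact (mul_le_mul_of_nonneg_left hhL ha.le).trans (hT1 T hTT1)
  have hV0 : 0 ≤ VC c κ K P := by
    unfold VC
    positivity
  -- pointwise
  set g : ℝ → ENNReal := fun t => ∑ v ∈ Finset.range n, ENNReal.ofReal (n * VC c κ K P *
    (‖Mb ε η (yb P κ v) T t‖ ^ 2 * Real.exp (-(a * h / T * |t|)))) with hg
  have hgm : Measurable g := by
    refine Finset.measurable_sum _ fun v _ => ?_
    refine Measurable.ennreal_ofReal ?_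
    have h1 := cont_Mb ε η (yb P κ v) T
    exact (continuous_const.mul ((h1.norm.pow 2).mul (by fun_prop))).measurable
  have hpt : ∀ t ∈ {t : ℝ | ∀ v < nb P κ K, ‖Qb P κ v t‖ ^ 2 ≤ VC c κ K P},
      ENNReal.ofReal (‖Fb ε η κ K P T t‖ ^ 2 * Real.exp (-(a * h / T * |t|))) ≤ g t := by
    intro t ht
    have ht' : ∀ v < n, ‖Qb P κ v t‖ ^ 2 ≤ VC c κ K P := ht
    rw [hg]
    simp only
    rw [← ENNReal.ofReal_sum_of_nonneg (fun v _ => by positivity)]
    apply ENNReal.ofReal_le_ofReal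
    rw [← Finset.mul_sum, ← Finset.sum_mul, ← mul_assoc]
    refine mul_le_mul_of_nonneg_right ?_ (Real.exp_pos _).le
    have hF : ‖Fb ε η κ K P T t‖ ≤ ∑ v ∈ Finset.range n, ‖Qb P κ v t‖ *
        ‖Mb ε η (yb P κ v) T t‖ := by
      unfold Fb
      rw [norm_mul]
      have h1 : ‖(1 / (Wb P κ K : ℂ))‖ ≤ 1 := by
        rw [norm_div, norm_one, Complex.norm_real, Real.norm_eq_abs,
          abs_of_nonneg (by linarith : 0 ≤ Wb P κ K), div_le_one (by linarith)]
        exact hW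
      have h2 : ‖∑ v ∈ Finset.range (nb P κ K), Qb P κ v t * Mb ε η (yb P κ v) T t‖ ≤
          ∑ v ∈ Finset.range n, ‖Qb P κ v t‖ * ‖Mb ε η (yb P κ v) T t‖ := by
        refine (norm_sum_le _ _).trans (le_of_eq ?_)
        exact Finset.sum_congr rfl fun v _ => norm_mul _ _
      calc ‖(1 / (Wb P κ K : ℂ))‖ *
            ‖∑ v ∈ Finset.range (nb P κ K), Qb P κ v t * Mb ε η (yb P κ v) T t‖ ≤
            1 * ∑ v ∈ Finset.range n, ‖Qb P κ v t‖ * ‖Mb ε η (yb P κ v) T t‖ :=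
              mul_le_mul h1 h2 (norm_nonneg _) zero_le_one
        _ = _ := one_mul _
    have hcs : (∑ v ∈ Finset.range n, ‖Qb P κ v t‖ * ‖Mb ε η (yb P κ v) T t‖) ^ 2 ≤
        n * ∑ v ∈ Finset.range n, (‖Qb P κ v t‖ * ‖Mb ε η (yb P κ v) T t‖) ^ 2 := by
      have := sq_sum_le_card_mul_sum_sq (s := Finset.range n)
        (f := fun v => ‖Qb P κ v t‖ * ‖Mb ε η (yb P κ v) T t‖)
      rwa [Finset.card_range] at this
    calc ‖Fb ε η κ K P T t‖ ^ 2 ≤
          (∑ v ∈ Finset.range n, ‖Qb P κ v t‖ * ‖Mb ε η (yb P κ v) T t‖) ^ 2 :=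
            pow_le_pow_left₀ (norm_nonneg _) hF 2
      _ ≤ n * ∑ v ∈ Finset.range n, (‖Qb P κ v t‖ * ‖Mb ε η (yb P κ v) T t‖) ^ 2 := hcs
      _ ≤ n * ∑ v ∈ Finset.range n, VC c κ K P * ‖Mb ε η (yb P κ v) T t‖ ^ 2 := by
          refine mul_le_mul_of_nonneg_left (Finset.sum_le_sum fun v hv => ?_)
            (Nat.cast_nonneg n)
          rw [mul_pow]
          exact mul_le_mul_of_nonneg_right (ht' v (Finset.mem_range.mp hv)) (sq_nonneg _)
      _ = n * VC c κ K P * ∑ v ∈ Finset.range n, ‖Mb ε η (yb P κ v) T t‖ ^ 2 := by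
          rw [← Finset.mul_sum, mul_assoc]
  refine (setLIntegral_mono hgm hpt).trans ?_
  refine (setLIntegral_le_lintegral _ _).trans ?_
  rw [hg, lintegral_finset_sum' _ (fun v _ => by
    refine Measurable.aemeasurable (Measurable.ennreal_ofReal ?_)
    have h1 := cont_Mb ε η (yb P κ v) T
    exact (continuous_const.mul ((h1.norm.pow 2).mul (by fun_prop))).measurable)]
  have hone : ∀ v ∈ Finset.range n, ∫⁻ t : ℝ, ENNReal.ofReal (n * VC c κ K P *
      (‖Mb ε η (yb P κ v) T t‖ ^ 2 * Real.exp (-(a * h / T * |t|)))) ≤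
      ENNReal.ofReal (n * VC c κ K P * (CM * (16 * Real.log T ^ 4 * (1 / (a * ε) + 1) /
        ε ^ 2))) := by
    intro v hv
    have hnn : 0 ≤ (n : ℝ) * VC c κ K P := by positivity
    have h1 : ∀ t : ℝ, ENNReal.ofReal (n * VC c κ K P *
        (‖Mb ε η (yb P κ v) T t‖ ^ 2 * Real.exp (-(a * h / T * |t|)))) =
        ENNReal.ofReal (n * VC c κ K P) *
          ENNReal.ofReal (‖Mb ε η (yb P κ v) T t‖ ^ 2 * Real.exp (-(a * h / T * |t|))) :=
      fun t => ENNReal.ofReal_mul hnn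
    simp only [h1]
    rw [lintegral_const_mul' _ _ ENNReal.ofReal_ne_top, ENNReal.ofReal_mul hnn]
    exact mul_le_mul_right (Mb_int hbas hCM hM ha hε hε1 hη (by linarith) hTe
      (hyQ v hv).1 (hyQ v hv).2 hb1) _
  refine (Finset.sum_le_sum hone).trans ?_
  rw [Finset.sum_const, Finset.card_range, ← ENNReal.ofReal_nsmul, nsmul_eq_mul]
  apply ENNReal.ofReal_le_ofReal
  have hn2 : (n : ℝ) * (n * VC c κ K P) ≤ c := by
    unfold VC
    rw [← hn]
    have h0 : (0 : ℝ) ≤ n := Nat.cast_nonneg n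
    have h1 : (n : ℝ) * (n * (c / (1 + n) ^ 2)) = n ^ 2 * c / (1 + n) ^ 2 := by ring
    rw [h1, div_le_iff₀ (by positivity)]
    nlinarith
  have hpos : 0 ≤ CM * (16 * Real.log T ^ 4 * (1 / (a * ε) + 1) / ε ^ 2) := by
    have : 0 ≤ Real.log T := Real.log_nonneg (by linarith)
    positivity
  calc (n : ℝ) * (n * VC c κ K P * (CM * (16 * Real.log T ^ 4 * (1 / (a * ε) + 1) / ε ^ 2))) =
      (n * (n * VC c κ K P)) * (CM * (16 * Real.log T ^ 4 * (1 / (a * ε) + 1) / ε ^ 2)) := by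
        ring
    _ ≤ c * (CM * (16 * Real.log T ^ 4 * (1 / (a * ε) + 1) / ε ^ 2)) :=
        mul_le_mul_of_nonneg_right hn2 hpos
    _ = CM * (16 * (1 / (a * ε) + 1) / ε ^ 2) * c * Real.log T ^ 4 := by ring

end Pool.Agent.Lib.MP_6bc78b_nt.GP.H10G
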