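import Pool.Agent.Lib.MP_6bc78b_nt.GP.Iface
import Pool.Agent.Lib.MP_6bc78b_nt.H11.Contour
import Pool.Agent.Lib.MP_6bc78b_nt.MS.P1.SWAP

/-! Project GP, module MEL: `E(z)` as a Mellin integral on a vertical line. -/

set_option autoImplicit false

open Complex Filter Topology MeasureTheory Set

namespace Pool.Agent.Lib.MP_6bc78b_nt.GP

open Pool.Agent.Lib.MP_6bc78b_nt.MS Pool.Agent.Lib.MP_6bc78b_nt.MS.P1

namespace H10

/-- A polynomial is at most a constant times an exponential. -/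
theorem poly_le_exp {η : ℝ} (hη : 0 < η) : ∃ K : ℝ, 0 < K ∧ ∀ x : ℝ, 0 ≤ x →
    (1 + x) ^ 7 ≤ K * Real.exp (η * x) := by
  set a : ℝ := η / 7 with ha
  have ha0 : 0 < a := by positivity
  refine ⟨(1 + 1 / a) ^ 7, by positivity, fun x hx => ?_⟩
  have h1 : 1 + x ≤ (1 + 1 / a) * Real.exp (a * x) := by
    have h2 : a * x + 1 ≤ Real.exp (a * x) := Real.add_one_le_exp _
    have h3 : (1 + 1 / a) * (a * x + 1) ≤ (1 + 1 / a) * Real.exp (a * x) :=
      mul_le_mul_of_nonneg_left h2 (by positivity)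
    have h4 : (1 + 1 / a) * (a * x + 1) = 1 + x + (a * x + 1 / a) := by
      field_simp
      ring
    have h5 : 0 ≤ a * x + 1 / a := by positivity
    linarith
  calc (1 + x) ^ 7 ≤ ((1 + 1 / a) * Real.exp (a * x)) ^ 7 :=
        pow_le_pow_left₀ (by linarith) h1 7
    _ = (1 + 1 / a) ^ 7 * Real.exp (η * x) := by
        rw [mul_pow, ← Real.exp_nat_mul]
        congr 2
        rw [ha]
        push_cast
        ring

theorem norm_cpow_line {z : ℂ} (hz : z ≠ 0) (σ t : ℝ) :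
    ‖z ^ (-(σ + t * I : ℂ))‖ = ‖z‖ ^ (-σ) * Real.exp (arg z * t) := by
  rw [Complex.norm_cpow_of_ne_zero hz]
  simp only [Complex.neg_re, Complex.neg_im, Complex.add_re, Complex.add_im, Complex.mul_re,
    Complex.mul_im, Complex.ofReal_re, Complex.ofReal_im, Complex.I_re, Complex.I_im, mul_zero,
    mul_one, sub_zero, add_zero, zero_add, zero_mul, sub_self]
  rw [div_eq_mul_inv, ← Real.exp_neg]
  congr 2
  ring

/-- The bound used for the contour shift. -/
theorem line_bound (h3 : GRWStatement) (h4 : GAMBStatement) (hRH : RiemannHypothesis)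
    {A B : ℝ} {D : ℂ → ℂ} (hD : IsD A B D) {c : ℝ} {z : ℂ} (hc : 1 / 2 < c) (hz : 0 < z.re) :
    ∃ C : ℝ, ∀ σ ∈ Icc c (3 / 2 : ℝ), ∀ t : ℝ,
      ‖D (σ + t * I) * Complex.Gamma (σ + t * I) * z ^ (-(σ + t * I : ℂ))‖ ≤ C * H11.jb t := by
  obtain ⟨C1, hC1, hD1⟩ := h3 hRH A B D hD c hc
  obtain ⟨C2, hC2, hG⟩ := h4
  have hz0 : z ≠ 0 := by
    rintro rfl
    simp at hz
  have harg : |arg z| < Real.pi / 2 := by
    rw [Complex.abs_arg_lt_pi_div_two_iff]
    exact Or.inl hz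
  set η : ℝ := Real.pi / 2 - |arg z| with hη
  have hη0 : 0 < η := by rw [hη]; linarith
  obtain ⟨K, hK, hKb⟩ := poly_le_exp hη0
  have hzn : 0 < ‖z‖ := norm_pos_iff.mpr hz0
  set M : ℝ := max (‖z‖ ^ (-c)) (‖z‖ ^ (-(3 / 2 : ℝ))) with hM
  have hM0 : 0 < M := lt_of_lt_of_le (Real.rpow_pos_of_pos hzn _) (le_max_left _ _)
  refine ⟨C1 * C2 * M * K, fun σ hσ t => ?_⟩
  have hx : (0 : ℝ) ≤ |t| := abs_nonneg t
  have e1 : ‖D (σ + t * I)‖ ≤ C1 * (1 + |t|) ^ 4 := by
    have := hD1 (σ + t * I) (by simpa using hσ.1) (by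
      simp only [Complex.add_re, Complex.mul_re, Complex.ofReal_re, Complex.ofReal_im,
        Complex.I_re, Complex.I_im, mul_zero, zero_mul, sub_zero, add_zero]
      linarith [hσ.2])
    simpa using this
  have e2 : ‖Complex.Gamma (σ + t * I)‖ ≤ C2 * (1 + |t|) * Real.exp (-(Real.pi / 2 * |t|)) := by
    refine (hG σ t (by linarith [hσ.1]) (by linarith [hσ.2])).trans ?_
    refine mul_le_mul_of_nonneg_right ?_ (Real.exp_pos _).le
    refine mul_le_mul_of_nonneg_left ?_ hC2.le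
    calc (1 + |t|) ^ (σ - 1 / 2) ≤ (1 + |t|) ^ (1 : ℝ) :=
          Real.rpow_le_rpow_of_exponent_le (by linarith) (by linarith [hσ.2])
      _ = 1 + |t| := Real.rpow_one _
  have e3 : ‖z ^ (-(σ + t * I : ℂ))‖ ≤ M * Real.exp (|arg z| * |t|) := by
    rw [norm_cpow_line hz0]
    refine mul_le_mul ?_ (Real.exp_le_exp.mpr ?_) (Real.exp_pos _).le hM0.le
    · by_cases h1 : 1 ≤ ‖z‖
      · exact (Real.rpow_le_rpow_of_exponent_le h1 (by linarith [hσ.1])).trans (le_max_left _ _)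
      · rw [not_le] at h1
        exact (Real.rpow_le_rpow_of_exponent_ge hzn h1.le (by linarith [hσ.2])).trans
          (le_max_right _ _)
    · rw [← abs_mul]
      exact le_abs_self _
  have hj : H11.jb t = (1 + |t|) ^ (-(3 / 2 : ℝ)) := by
    unfold H11.jb
    rw [Real.norm_eq_abs]
  have hp : (0 : ℝ) < 1 + |t| := by linarith
  have e4 : (1 + |t|) ^ 5 * Real.exp (-(η * |t|)) ≤ K * H11.jb t := by
    have h5 := hKb |t| hx
    have h6 : (1 + |t|) ^ 5 ≤ K * Real.exp (η * |t|) * H11.jb t := by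
      have h7 : (1 + |t|) ^ 5 = (1 + |t|) ^ 7 * (1 + |t|) ^ (-(2 : ℝ)) := by
        rw [← Real.rpow_natCast, ← Real.rpow_natCast, ← Real.rpow_add hp]
        norm_num
      have h8 : (1 + |t|) ^ (-(2 : ℝ)) ≤ H11.jb t := by
        rw [hj]
        exact Real.rpow_le_rpow_of_exponent_le (by linarith) (by norm_num)
      rw [h7]
      exact mul_le_mul h5 h8 (Real.rpow_nonneg hp.le _) (by positivity)
    calc (1 + |t|) ^ 5 * Real.exp (-(η * |t|))
        ≤ (K * Real.exp (η * |t|) * H11.jb t) * Real.exp (-(η * |t|)) :=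
          mul_le_mul_of_nonneg_right h6 (Real.exp_pos _).le
      _ = K * H11.jb t * (Real.exp (η * |t|) * Real.exp (-(η * |t|))) := by ring
      _ = K * H11.jb t := by rw [← Real.exp_add, add_neg_cancel, Real.exp_zero, mul_one]
  rw [norm_mul, norm_mul]
  have e5 : ‖D (σ + t * I)‖ * ‖Complex.Gamma (σ + t * I)‖ * ‖z ^ (-(σ + t * I : ℂ))‖ ≤
      (C1 * (1 + |t|) ^ 4) * (C2 * (1 + |t|) * Real.exp (-(Real.pi / 2 * |t|))) *
        (M * Real.exp (|arg z| * |t|)) := by
    have n1 := norm_nonneg (D (σ + t * I))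
    have n2 := norm_nonneg (Complex.Gamma (σ + t * I))
    have n3 := norm_nonneg (z ^ (-(σ + t * I : ℂ)))
    exact mul_le_mul (mul_le_mul e1 e2 n2 (by positivity)) e3 n3 (by positivity)
  refine e5.trans ?_
  have e6 : (C1 * (1 + |t|) ^ 4) * (C2 * (1 + |t|) * Real.exp (-(Real.pi / 2 * |t|))) *
        (M * Real.exp (|arg z| * |t|)) =
      C1 * C2 * M * ((1 + |t|) ^ 5 * Real.exp (-(η * |t|))) := by
    have : Real.exp (-(η * |t|)) = Real.exp (-(Real.pi / 2 * |t|)) * Real.exp (|arg z| * |t|) := by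
      rw [← Real.exp_add]
      congr 1
      rw [hη]
      ring
    rw [this]
    ring
  rw [e6]
  calc C1 * C2 * M * ((1 + |t|) ^ 5 * Real.exp (-(η * |t|)))
      ≤ C1 * C2 * M * (K * H11.jb t) := mul_le_mul_of_nonneg_left e4 (by positivity)
    _ = C1 * C2 * M * K * H11.jb t := by ring

theorem nat_mul_cpow {z : ℂ} (hz : z ≠ 0) {n : ℕ} (hn : n ≠ 0) (s : ℂ) :
    ((n : ℂ) * z) ^ (-s) = z ^ (-s) * (n : ℂ) ^ (-s) := by
  have hn0 : (0 : ℝ) < (n : ℝ) := by exact_mod_cast Nat.pos_of_ne_zero hn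
  have hnc : (n : ℂ) ≠ 0 := by exact_mod_cast hn
  rw [Complex.cpow_def_of_ne_zero (mul_ne_zero hnc hz), Complex.cpow_def_of_ne_zero hz,
    Complex.cpow_def_of_ne_zero hnc, ← Complex.exp_add]
  congr 1
  have h1 : Complex.log (((n : ℝ) : ℂ) * z) = (Real.log (n : ℝ) : ℂ) + Complex.log z :=
    Complex.log_ofReal_mul hn0 hz
  have h2 : Complex.log ((n : ℝ) : ℂ) = (Real.log (n : ℝ) : ℂ) := (Complex.ofReal_log hn0.le).symm
  rw [Complex.ofReal_natCast] at h1 h2
  rw [h1, h2]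
  ring

end H10

theorem mel (h1 : GAMIStatement) (h2 : DX2Statement) (h3 : GRWStatement) (h4 : GAMBStatement) :
    MELStatement := by
  intro hRH A B D hD c z hc hc2 hz
  have hz0 : z ≠ 0 := by
    rintro rfl
    simp at hz
  obtain ⟨C, hC⟩ := H10.line_bound h3 h4 hRH hD hc hz
  set F : ℂ → ℂ := fun s => D s * Complex.Gamma s * z ^ (-s) with hF
  have hFd : DifferentiableOn ℂ F H11.OM := by
    intro s hs
    have hs' : 1 / 2 < s.re := hs
    have hDs : DifferentiableWithinAt ℂ D H11.OM s := hD.1 s hs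
    have hG : DifferentiableAt ℂ Complex.Gamma s := by
      apply Complex.differentiableAt_Gamma
      intro m hm
      rw [hm] at hs'
      simp only [Complex.neg_re, Complex.natCast_re] at hs'
      have : (0 : ℝ) ≤ (m : ℝ) := Nat.cast_nonneg m
      linarith
    have hzs : DifferentiableAt ℂ (fun s : ℂ => z ^ (-s)) s :=
      (differentiableAt_id.neg).const_cpow (Or.inl hz0)
    exact (hDs.mul hG.differentiableWithinAt).mul hzs.differentiableWithinAt
  have hshift : ∫ t : ℝ, F (c + t * I) = ∫ t : ℝ, F (((3 / 2 : ℝ) : ℂ) + t * I) :=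
    H11.contour_shift hFd hc hc2 (fun σ hσ t => hC σ hσ t)
  refine ⟨H11.integrable_line hFd hc (fun t => hC c ⟨le_rfl, hc2⟩ t), ?_⟩
  -- the line `Re s = 3/2`
  set a : ℕ → ℂ := fun n => ((bn A B n : ℝ) : ℂ) with ha
  have hline : ∀ t : ℝ, F (((3 / 2 : ℝ) : ℂ) + t * I) =
      LSeries a (((3 / 2 : ℝ) : ℂ) + t * I) *
        (Complex.Gamma (((3 / 2 : ℝ) : ℂ) + t * I) * z ^ (-(((3 / 2 : ℝ) : ℂ) + t * I))) := by
    intro t
    have hre : ((((3 / 2 : ℝ) : ℂ) + t * I)).re = 3 / 2 := by simp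
    have hs1 : (((3 / 2 : ℝ) : ℂ) + t * I) ≠ 1 := by
      intro h
      have := congrArg Complex.re h
      rw [hre] at this
      norm_num at this
    have e1 : D (((3 / 2 : ℝ) : ℂ) + t * I) = DF A B (((3 / 2 : ℝ) : ℂ) + t * I) :=
      hD.2 _ (show (1 : ℝ) / 2 < ((((3 / 2 : ℝ) : ℂ) + t * I)).re by rw [hre]; norm_num) hs1
    have e2 := (h2 A B).1 (((3 / 2 : ℝ) : ℂ) + t * I) (by rw [hre]; norm_num)
    simp only [hF]
    rw [e1, ← e2, mul_assoc]
  have hVI : VI c F = VI (3 / 2) (fun s => LSeries a s * (Complex.Gamma s * z ^ (-s))) := by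
    unfold VI
    rw [hshift]
    congr 1
    exact integral_congr_ae (ae_of_all _ hline)
  have hsum : Summable (fun n : ℕ => ‖a n‖ * (n : ℝ) ^ (-(3 / 2 : ℝ))) := by
    have := (h2 A B).2.1 (3 / 2) (by norm_num)
    refine this.congr fun n => ?_
    rw [ha]
    simp only [Complex.norm_real, Real.norm_eq_abs]
  obtain ⟨-, -, hswap⟩ := SWAP.swap (3 / 2) a (fun s => Complex.Gamma s * z ^ (-s)) hsum
    (h1 (3 / 2) z (by norm_num) hz).1
  show EE A B z = VI c F
  rw [hVI, hswap]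
  unfold EE
  refine tsum_congr fun n => ?_
  by_cases hn : n = 0
  · rw [if_pos hn, hn]
    simp [bn]
  · rw [if_neg hn]
    have hnz : 0 < ((n : ℂ) * z).re := by
      have : (0 : ℝ) < (n : ℝ) := by exact_mod_cast Nat.pos_of_ne_zero hn
      simp only [Complex.mul_re, Complex.natCast_re, Complex.natCast_im, zero_mul, sub_zero]
      positivity
    have e1 := (h1 (3 / 2) ((n : ℂ) * z) (by norm_num) hnz).2
    rw [e1, ha]
    congr 1
    unfold VI
    congr 1
    refine integral_congr_ae (ae_of_all _ fun t => ?_)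
    simp only
    rw [H10.nat_mul_cpow hz0 hn]
    ring

end Pool.Agent.Lib.MP_6bc78b_nt.GP
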