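import Pool.Agent.Lib.MP_6bc78b_nt.GP.H43.Defs10b
import Pool.Agent.Lib.MP_6bc78b_nt.GP.H10.Fto

/-! GP10, row SPLB: the pieces of the window are small in `L¹`. -/

set_option autoImplicit false

open Complex Filter Topology MeasureTheory Set

namespace Pool.Agent.Lib.MP_6bc78b_nt.GP.H10F

open Pool.Agent.Lib.MP_6bc78b_nt.GP

theorem splb : G10.SPLBStatement := by
  obtain ⟨C, hC, h⟩ := spl
  refine ⟨psi, ⟨psi_cont, fun u => ⟨psi_nonneg u, psi_le u⟩, fun u => psi_one, fun u => psi_zero⟩,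
    C * 16 ^ 8, by positivity, fun lam H j J hlam hH _ hj hJ => ?_⟩
  have h1 : FTo _ _ := h (lam / 16) H j J (by positivity) hH (by linarith) hJ
  have h2 : C * (lam / 16 * j) ^ (-8 : ℤ) ≤ C * 16 ^ 8 / (lam ^ 6 * j ^ 6) := by
    have hl : 0 < lam := by linarith
    have hj0 : 0 < j := by linarith
    have e1 : (lam / 16 * j) ^ (-8 : ℤ) = 16 ^ 8 / (lam ^ 8 * j ^ 8) := by
      rw [zpow_neg]
      have h4 : (lam / 16 * j) ^ (8 : ℤ) = (lam / 16 * j) ^ 8 := by norm_cast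
      rw [h4]
      field_simp
    rw [e1, ← mul_div_assoc]
    have h5 : lam ^ 6 * j ^ 6 ≤ lam ^ 8 * j ^ 8 := by
      have h6 : lam ^ 6 ≤ lam ^ 8 := pow_le_pow_right₀ hlam (by norm_num)
      have h7 : j ^ 6 ≤ j ^ 8 := pow_le_pow_right₀ hj (by norm_num)
      exact mul_le_mul h6 h7 (by positivity) (by positivity)
    gcongr
  exact h1.mono h2

end Pool.Agent.Lib.MP_6bc78b_nt.GP.H10F
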